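import Pool.Agent.H474R2.GE.HomsUpper
import Pool.Agent.H474R2.GE.RhoHoms
import Pool.Agent.H474R2.PG.Final

set_option autoImplicit false

/-! # Several polynomials: number theoretic input

* `mertens_two`: the two sided theorem of Mertens for the roots of a polynomial (the argument of
  `Pool.Agent.H474R2.GE.FA`);
* `count_poly`: counting the arguments at which given polynomials vanish modulo given primes
  (after `Pool.Agent.H474R2.PG.Count`);
* `greedy`: choice of a residue class for a set of polynomials;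
* `no_coll`: a large prime does not divide the values of two different polynomials of a family. -/

namespace Pool.Agent.N201.SP

open Polynomial Finset NumberField
open Pool.Agent.H474R2.PG Pool.Agent.H474R2.GE

/-- two-sided Mertens theorem for the roots of a polynomial -/
theorem mertens_two (f : ℤ[X]) (hf : Irreducible f) (hd : 0 < f.natDegree) :
    ∃ C : ℝ, 0 ≤ C ∧ ∀ w : ℝ, 3 ≤ w → |Sg (rho f) w - Real.log (Real.log w)| ≤ C := by
  obtain ⟨C1, hC1⟩ := mertens_lower f hf hd
  obtain ⟨K, iF, iN, B, hB⟩ := rho_le_homs f hf hd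
  obtain ⟨C2, hC2⟩ := homs_upper K
  set S0 : ℝ := ∑ p ∈ PR B, (rho f p : ℝ) / (p : ℝ) with hS0
  have hS00 : 0 ≤ S0 := Finset.sum_nonneg fun p _ => by positivity
  refine ⟨max C1 0 + max C2 0 + S0, by positivity, fun w hw => ?_⟩
  have h1 := hC1 w hw
  have h2 := hC2 w hw
  have h3 : Sg (rho f) w ≤ S0 + ∑ p ∈ PR w, (Nat.card (𝓞 K →+* ZMod p) : ℝ) / (p : ℝ) := by
    unfold Sg
    rw [← Finset.sum_filter_add_sum_filter_not (PR w) (fun p => p ≤ B)]
    apply add_le_add
    · rw [hS0]
      apply Finset.sum_le_sum_of_subset_of_nonneg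
      · intro p hp
        rw [Finset.mem_filter, PR, Finset.mem_filter, Finset.mem_Icc] at hp
        rw [PR, Finset.mem_filter, Finset.mem_Icc, Nat.floor_natCast]
        exact ⟨⟨hp.1.1.1, hp.2⟩, hp.1.2⟩
      · intro p _ _
        positivity
    · calc ∑ p ∈ (PR w).filter (fun p => ¬ p ≤ B), (rho f p : ℝ) / (p : ℝ)
          ≤ ∑ p ∈ (PR w).filter (fun p => ¬ p ≤ B),
              (Nat.card (𝓞 K →+* ZMod p) : ℝ) / (p : ℝ) := by
            apply Finset.sum_le_sum
            intro p hp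
            rw [Finset.mem_filter] at hp
            have hpp : p.Prime := (Finset.mem_filter.1 hp.1).2
            have h3 : (rho f p : ℝ) ≤ (Nat.card (𝓞 K →+* ZMod p) : ℝ) := by
              exact_mod_cast hB p hpp (not_le.1 hp.2)
            exact div_le_div_of_nonneg_right h3 (by positivity)
        _ ≤ ∑ p ∈ PR w, (Nat.card (𝓞 K →+* ZMod p) : ℝ) / (p : ℝ) := by
            apply Finset.sum_le_sum_of_subset_of_nonneg (Finset.filter_subset _ _)
            intro p _ _
            positivity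
  have h4 := le_max_left C1 0
  have h5 := le_max_left C2 0
  have h6 := le_max_right C1 0
  have h7 := le_max_right C2 0
  rw [abs_le]
  constructor <;> linarith

/-- counting in residue classes, one polynomial for each prime -/
theorem count_poly (P : ℕ → ℤ[X]) (A B : ℤ) (hAB : A ≤ B) (W : ℕ) (hW : 1 ≤ W) (r : ℤ)
    (T : Finset ℕ) (hT : ∀ p ∈ T, p.Prime ∧ ¬ p ∣ W) :
    |(((Finset.Ioc A B).filter (fun a : ℤ => (W : ℤ) ∣ a - r ∧
        ∀ p ∈ T, (p : ℤ) ∣ (P p).eval a)).card : ℝ) -
      ((B : ℝ) - A) / W * ∏ p ∈ T, (rho (P p) p : ℝ) / (p : ℝ)| ≤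
      ∏ p ∈ T, (rho (P p) p : ℝ) := by
  classical
  induction T using Finset.induction_on generalizing W r with
  | empty =>
    have h := Pool.Agent.H256R2.SC.count_ap A B hAB W hW r
    simpa using h
  | insert p T hpT ih =>
    obtain ⟨hp, hpW⟩ := hT p (Finset.mem_insert_self p T)
    have hp0 : (0 : ℤ) < (p : ℤ) := by exact_mod_cast hp.pos
    have hpR : (0 : ℝ) < (p : ℝ) := by exact_mod_cast hp.pos
    have hWR : (0 : ℝ) < (W : ℝ) := by exact_mod_cast hW
    obtain ⟨Z, hZ⟩ : ∃ Z, Z = (Finset.range p).filter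
        (fun a : ℕ => (p : ℤ) ∣ (P p).eval (a : ℤ)) := ⟨_, rfl⟩
    have hZc : Z.card = rho (P p) p := by rw [hZ]; rfl
    have hcop : IsCoprime (W : ℤ) (p : ℤ) := by
      rw [Nat.isCoprime_iff_coprime]
      exact (Nat.Coprime.symm ((Nat.Prime.coprime_iff_not_dvd hp).2 hpW))
    -- the classes
    have hcrt : ∀ c : ℕ, ∃ rc : ℤ, (W : ℤ) ∣ rc - r ∧ (p : ℤ) ∣ rc - (c : ℤ) := by
      intro c
      obtain ⟨u, v, huv⟩ := hcop
      refine ⟨r * (v * p) + (c : ℤ) * (u * W), ?_, ?_⟩
      · refine ⟨u * ((c : ℤ) - r), ?_⟩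
        have : v * (p : ℤ) = 1 - u * W := by linarith
        rw [this]; ring
      · refine ⟨v * (r - (c : ℤ)), ?_⟩
        have : u * (W : ℤ) = 1 - v * p := by linarith
        rw [this]; ring
    choose rc hrc1 hrc2 using hcrt
    obtain ⟨F, hF⟩ : ∃ F, F = (Finset.Ioc A B).filter (fun a : ℤ => (W : ℤ) ∣ a - r ∧
        ∀ q ∈ insert p T, (q : ℤ) ∣ (P q).eval a) := ⟨_, rfl⟩
    have hfib : F.card = ∑ c ∈ Z, ((Finset.Ioc A B).filter (fun a : ℤ =>
        ((W * p : ℕ) : ℤ) ∣ a - rc c ∧ ∀ q ∈ T, (q : ℤ) ∣ (P q).eval a)).card := by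
      have hmod : ∀ a : ℤ, (((a % (p : ℤ)).toNat : ℕ) : ℤ) = a % (p : ℤ) :=
        fun a => Int.toNat_of_nonneg (Int.emod_nonneg _ hp0.ne')
      have hdvd : ∀ a : ℤ, (p : ℤ) ∣ a - ((a % (p : ℤ)).toNat : ℕ) := by
        intro a
        rw [hmod]
        exact Int.dvd_self_sub_emod
      have hmaps : Set.MapsTo (fun a : ℤ => (a % (p : ℤ)).toNat) (F : Set ℤ)
          (Z : Set ℕ) := by
        intro a ha
        rw [Finset.mem_coe, hF, Finset.mem_filter] at ha
        rw [Finset.mem_coe, hZ, Finset.mem_filter, Finset.mem_range]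
        constructor
        · have h1 := Int.emod_lt_of_pos a hp0
          have h2 := hmod a
          show (a % (p : ℤ)).toNat < p
          omega
        · have h3 := ha.2.2 p (Finset.mem_insert_self p T)
          exact (eval_dvd_congr (P p) p _ _ (hdvd a)).1 h3
      rw [Finset.card_eq_sum_card_fiberwise hmaps]
      refine Finset.sum_congr rfl (fun c hc => ?_)
      congr 1
      rw [hZ, Finset.mem_filter, Finset.mem_range] at hc
      ext a
      rw [hF, Finset.mem_filter, Finset.mem_filter, Finset.mem_filter]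
      constructor
      · rintro ⟨⟨h1, h2, h3⟩, h4⟩
        refine ⟨h1, ?_, fun q hq => h3 q (Finset.mem_insert_of_mem hq)⟩
        have h5 := hdvd a
        rw [h4] at h5
        have h6 : (p : ℤ) ∣ a - rc c := by
          have := dvd_sub h5 (hrc2 c)
          have e : a - (c : ℤ) - (rc c - (c : ℤ)) = a - rc c := by ring
          rwa [e] at this
        have h7 : (W : ℤ) ∣ a - rc c := by
          have := dvd_sub h2 (hrc1 c)
          have e : a - r - (rc c - r) = a - rc c := by ring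
          rwa [e] at this
        push_cast
        exact hcop.mul_dvd h7 h6
      · rintro ⟨h1, h2, h3⟩
        push_cast at h2
        have h7 : (W : ℤ) ∣ a - rc c := (Dvd.intro _ rfl).trans h2
        have h6 : (p : ℤ) ∣ a - rc c := (Dvd.intro_left _ rfl).trans h2
        have h5 : (p : ℤ) ∣ a - (c : ℤ) := by
          have := dvd_add h6 (hrc2 c)
          have e : a - rc c + (rc c - (c : ℤ)) = a - (c : ℤ) := by ring
          rwa [e] at this
        refine ⟨⟨h1, ?_, ?_⟩, ?_⟩
        · have := dvd_add h7 (hrc1 c)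
          have e : a - rc c + (rc c - r) = a - r := by ring
          rwa [e] at this
        · intro q hq
          rcases Finset.mem_insert.1 hq with rfl | hq
          · exact (eval_dvd_congr (P q) q _ _ h5).2 hc.2
          · exact h3 q hq
        · have h8 : a % (p : ℤ) = c := by
            have h10 : a % (p : ℤ) = (c : ℤ) % (p : ℤ) :=
              ((Int.modEq_iff_dvd.2 h5).symm)
            rw [h10]
            exact Int.emod_eq_of_lt (by omega) (by exact_mod_cast hc.1)
          show (a % (p : ℤ)).toNat = c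
          rw [h8]
          simp
    rw [← hF, hfib]
    have hWp : 1 ≤ W * p := Nat.mul_pos hW hp.pos
    have hT' : ∀ q ∈ T, q.Prime ∧ ¬ q ∣ W * p := by
      intro q hq
      obtain ⟨h1, h2⟩ := hT q (Finset.mem_insert_of_mem hq)
      refine ⟨h1, fun h => ?_⟩
      rcases (Nat.Prime.dvd_mul h1).1 h with h | h
      · exact h2 h
      · have := (Nat.prime_dvd_prime_iff_eq h1 hp).1 h
        exact hpT (this ▸ hq)
    have hbd := fun c => ih (W * p) hWp (rc c) hT'
    rw [Finset.prod_insert hpT, Finset.prod_insert hpT]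
    push_cast
    have e1 : ∑ c ∈ Z, (((Finset.Ioc A B).filter (fun a : ℤ =>
        ((W : ℤ) * p) ∣ a - rc c ∧ ∀ q ∈ T, (q : ℤ) ∣ (P q).eval a)).card : ℝ) -
        ((B : ℝ) - A) / W * ((rho (P p) p : ℝ) / p * ∏ q ∈ T, (rho (P q) q : ℝ) / (q : ℝ)) =
        ∑ c ∈ Z, ((((Finset.Ioc A B).filter (fun a : ℤ =>
        ((W * p : ℕ) : ℤ) ∣ a - rc c ∧ ∀ q ∈ T, (q : ℤ) ∣ (P q).eval a)).card : ℝ) -
        ((B : ℝ) - A) / (W * p : ℕ) * ∏ q ∈ T, (rho (P q) q : ℝ) / (q : ℝ)) := by
      rw [Finset.sum_sub_distrib, Finset.sum_const, hZc, nsmul_eq_mul]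
      push_cast
      congr 1
      field_simp
    rw [e1]
    calc _ ≤ ∑ c ∈ Z, |((((Finset.Ioc A B).filter (fun a : ℤ =>
        ((W * p : ℕ) : ℤ) ∣ a - rc c ∧ ∀ q ∈ T, (q : ℤ) ∣ (P q).eval a)).card : ℝ) -
        ((B : ℝ) - A) / (W * p : ℕ) * ∏ q ∈ T, (rho (P q) q : ℝ) / (q : ℝ))| :=
          Finset.abs_sum_le_sum_abs _ _
      _ ≤ ∑ c ∈ Z, ∏ q ∈ T, (rho (P q) q : ℝ) := Finset.sum_le_sum (fun c _ => hbd c)
      _ = (rho (P p) p : ℝ) * ∏ q ∈ T, (rho (P q) q : ℝ) := by
          rw [Finset.sum_const, hZc, nsmul_eq_mul]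

lemma fac_nonneg (f : ℤ[X]) {p : ℕ} (hp : p.Prime) : 0 ≤ 1 - (rho f p : ℝ) / (p : ℝ) := by
  have hp0 : (0 : ℝ) < p := by exact_mod_cast hp.pos
  have h1 : (rho f p : ℝ) ≤ p := by exact_mod_cast rho_le_self f p
  rw [sub_nonneg, div_le_one hp0]
  exact h1

/-- one prime, with weights -/
lemma one_prime_w (p : ℕ) (hp : p.Prime) (R : Finset ℤ[X]) (ω : ℤ[X] → ℝ) : ∃ a : ℤ,
    ∑ f ∈ R with ¬ (p : ℤ) ∣ f.eval a, ω f ≤
      ∑ f ∈ R, (1 - (rho f p : ℝ) / (p : ℝ)) * ω f := by
  classical
  have hp0 : (0 : ℝ) < p := by exact_mod_cast hp.pos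
  have hsum : ∑ a ∈ Finset.range p, ∑ f ∈ R with ¬ (p : ℤ) ∣ f.eval (a : ℤ), ω f =
      ∑ f ∈ R, ((p : ℝ) - rho f p) * ω f := by
    simp_rw [Finset.sum_filter]
    rw [Finset.sum_comm]
    refine Finset.sum_congr rfl fun f _ => ?_
    rw [← Finset.sum_filter, Finset.sum_const, nsmul_eq_mul]
    congr 1
    have h3 := Finset.card_filter_add_card_filter_not (s := Finset.range p)
      (fun a : ℕ => (p : ℤ) ∣ f.eval (a : ℤ))
    rw [Finset.card_range] at h3
    have h4 : (rho f p : ℝ) + (((Finset.range p).filter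
        (fun a : ℕ => ¬ (p : ℤ) ∣ f.eval (a : ℤ))).card : ℝ) = p := by
      unfold rho
      exact_mod_cast h3
    linarith
  have hne : (Finset.range p).Nonempty := Finset.nonempty_range_iff.2 hp.ne_zero
  obtain ⟨a, -, ha⟩ := Finset.exists_le_of_sum_le (s := Finset.range p)
    (f := fun a : ℕ => ∑ f ∈ R with ¬ (p : ℤ) ∣ f.eval (a : ℤ), ω f)
    (g := fun _ => ∑ f ∈ R, (1 - (rho f p : ℝ) / (p : ℝ)) * ω f) hne (by
      rw [hsum, Finset.sum_const, Finset.card_range, nsmul_eq_mul, Finset.mul_sum]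
      apply le_of_eq
      refine Finset.sum_congr rfl fun f _ => ?_
      field_simp)
  exact ⟨a, ha⟩

lemma choose_poly (S : Finset ℕ) (hS : ∀ p ∈ S, p.Prime) (R : Finset ℤ[X]) :
    ∃ a : ℕ → ℤ, ((R.filter (fun f => ∀ p ∈ S, ¬ (p : ℤ) ∣ f.eval (a p))).card : ℝ) ≤
      ∑ f ∈ R, ∏ p ∈ S, (1 - (rho f p : ℝ) / (p : ℝ)) := by
  classical
  induction S using Finset.induction_on generalizing R with
  | empty => exact ⟨fun _ => 0, by simp⟩
  | insert p S hpS ih =>
    have hp := hS p (Finset.mem_insert_self p S)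
    have hS' : ∀ q ∈ S, q.Prime := fun q hq => hS q (Finset.mem_insert_of_mem hq)
    obtain ⟨a0, ha0⟩ := one_prime_w p hp R (fun f => ∏ q ∈ S, (1 - (rho f q : ℝ) / (q : ℝ)))
    obtain ⟨a, ha⟩ := ih hS' (R.filter (fun f => ¬ (p : ℤ) ∣ f.eval a0))
    refine ⟨Function.update a p a0, ?_⟩
    have heq : R.filter (fun f => ∀ q ∈ insert p S,
        ¬ (q : ℤ) ∣ f.eval (Function.update a p a0 q)) =
        (R.filter (fun f => ¬ (p : ℤ) ∣ f.eval a0)).filter
          (fun f => ∀ q ∈ S, ¬ (q : ℤ) ∣ f.eval (a q)) := by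
      rw [Finset.filter_filter]
      refine Finset.filter_congr (fun f _ => ?_)
      rw [Finset.forall_mem_insert, Function.update_self]
      constructor
      · rintro ⟨h1, h2⟩
        refine ⟨h1, fun q hq => ?_⟩
        have := h2 q hq
        rwa [Function.update_of_ne (by rintro rfl; exact hpS hq)] at this
      · rintro ⟨h1, h2⟩
        refine ⟨h1, fun q hq => ?_⟩
        rw [Function.update_of_ne (by rintro rfl; exact hpS hq)]
        exact h2 q hq
    rw [heq]
    refine ha.trans (ha0.trans (le_of_eq ?_))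
    refine Finset.sum_congr rfl fun f _ => ?_
    rw [Finset.prod_insert hpS]

/-- choice of a residue class for the small primes (greedy + Chinese remainder theorem) -/
theorem greedy (S : Finset ℕ) (hS : ∀ p ∈ S, p.Prime) (R : Finset ℤ[X]) :
    ∃ r : ℤ, ((R.filter (fun f => ∀ p ∈ S, ¬ (p : ℤ) ∣ f.eval r)).card : ℝ) ≤
      ∑ f ∈ R, ∏ p ∈ S, (1 - (rho f p : ℝ) / (p : ℝ)) := by
  classical
  obtain ⟨a, ha⟩ := choose_poly S hS R
  obtain ⟨r, hr⟩ := Pool.Agent.H256R2.SC.crt_int S (fun p : ℕ => (p : ℤ))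
    (fun i hi j hj hij => by
      rw [Nat.isCoprime_iff_coprime]
      exact (Nat.coprime_primes (hS i hi) (hS j hj)).2 hij) a
  refine ⟨r, le_trans (le_of_eq ?_) ha⟩
  congr 2
  refine Finset.filter_congr (fun f _ => ?_)
  refine forall₂_congr (fun p hp => not_congr ?_)
  exact eval_dvd_congr f p _ _ (hr p hp)

lemma rho_comp (f : ℤ[X]) (s : ℤ) {p : ℕ} (hp : p.Prime) : rho (f.comp (X + C s)) p = rho f p := by
  rw [← rho_shift f p hp s]
  unfold rho
  congr 1
  refine Finset.filter_congr fun a _ => ?_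
  rw [eval_comp]
  simp

lemma comp_irr {f : ℤ[X]} (hf : Irreducible f) (s : ℤ) : Irreducible (f.comp (X + C s)) := by
  have h := MulEquiv.irreducible_iff (Polynomial.algEquivAevalXAddC (R := ℤ) s) (x := f)
  have e : Polynomial.algEquivAevalXAddC (R := ℤ) s f = f.comp (X + C s) := by
    rw [Polynomial.algEquivAevalXAddC_apply, Polynomial.comp, Polynomial.aeval_def]
    rfl
  rw [e] at h
  exact h.2 hf

lemma comp_natDegree (f : ℤ[X]) (s : ℤ) : (f.comp (X + C s)).natDegree = f.natDegree := by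
  rw [natDegree_comp, natDegree_X_add_C, mul_one]

lemma comp_lc (f : ℤ[X]) (s : ℤ) : (f.comp (X + C s)).leadingCoeff = f.leadingCoeff := by
  rw [leadingCoeff_comp (by rw [natDegree_X_add_C]; exact one_ne_zero), leadingCoeff_X_add_C,
    one_pow, mul_one]

/-- different irreducible polynomials with positive leading coefficients are coprime over `ℚ` -/
lemma res_ne (f g : ℤ[X]) (hf : Irreducible f) (hg : Irreducible g) (hdf : 0 < f.natDegree)
    (hdg : 0 < g.natDegree) (hlf : 0 < f.leadingCoeff) (hlg : 0 < g.leadingCoeff) (hne : f ≠ g) :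
    f.resultant g f.natDegree g.natDegree ≠ 0 := by
  intro h0
  have hpf : f.IsPrimitive := hf.isPrimitive hdf.ne'
  have hpg : g.IsPrimitive := hg.isPrimitive hdg.ne'
  have hirf : Irreducible (f.map (Int.castRingHom ℚ)) :=
    (IsPrimitive.Int.irreducible_iff_irreducible_map_cast hpf).1 hf
  have hirg : Irreducible (g.map (Int.castRingHom ℚ)) :=
    (IsPrimitive.Int.irreducible_iff_irreducible_map_cast hpg).1 hg
  set F : ℚ[X] := f.map (Int.castRingHom ℚ) with hF
  set G : ℚ[X] := g.map (Int.castRingHom ℚ) with hG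
  have hnF : F.natDegree = f.natDegree :=
    natDegree_map_eq_of_injective (RingHom.injective_int (Int.castRingHom ℚ)) f
  have hnG : G.natDegree = g.natDegree :=
    natDegree_map_eq_of_injective (RingHom.injective_int (Int.castRingHom ℚ)) g
  have hcop : IsCoprime F G := by
    rw [hirf.coprime_iff_not_dvd]
    intro hdvd
    have h1 : f ∣ g := (IsPrimitive.Int.dvd_iff_map_cast_dvd_map_cast f g hpf).2 hdvd
    have h2 : Associated f g := (hf.associated_of_dvd hg h1)
    obtain ⟨u, hu⟩ := h2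
    have h3 := Polynomial.isUnit_iff.1 u.isUnit
    obtain ⟨e, he, hue⟩ := h3
    rw [← hue] at hu
    rcases Int.isUnit_iff.1 he with h | h
    · rw [h] at hu
      apply hne
      rw [← hu]
      simp
    · rw [h] at hu
      have h4 : g.leadingCoeff = - f.leadingCoeff := by
        rw [← hu, leadingCoeff_mul, leadingCoeff_C]
        ring
      omega
  have h1 := resultant_map_map f g f.natDegree g.natDegree (Int.castRingHom ℚ)
  rw [h0, map_zero, ← hF, ← hG] at h1
  have h2 := resultant_ne_zero F G hcop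
  rw [hnF, hnG] at h2
  exact h2 h1

/-- large primes do not divide two values of different polynomials at close arguments -/
theorem no_coll (f g : ℤ[X]) (hf : Irreducible f) (hg : Irreducible g) (hdf : 0 < f.natDegree)
    (hdg : 0 < g.natDegree) (hlf : 0 < f.leadingCoeff) (hlg : 0 < g.leadingCoeff) (b : ℕ) :
    ∃ A₀ : ℕ, ∀ A : ℕ, A₀ ≤ A → ∃ T₀ : ℝ, ∀ T : ℝ, T₀ ≤ T → ∀ p : ℕ, p.Prime → T ^ A < (p : ℝ) →
      ∀ t : ℤ, |(t : ℝ)| ≤ T ^ b → g.comp (X + C t) ≠ f → ∀ x : ℤ, (p : ℤ) ∣ f.eval x →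
        ¬ (p : ℤ) ∣ g.eval (x + t) := by
  classical
  set d := f.natDegree with hdd
  set e := g.natDegree with hee
  set F : ℤ[X][X] := f.map C with hF
  set G : ℤ[X][X] := (g.map C).comp (X + C X) with hG
  have hFd : F.natDegree ≤ d := natDegree_map_le
  have hGd : G.natDegree ≤ e := by
    have h1 : (X + C X : ℤ[X][X]).natDegree = 1 := natDegree_X_add_C _
    calc G.natDegree ≤ (g.map C : ℤ[X][X]).natDegree * (X + C X : ℤ[X][X]).natDegree :=
          natDegree_comp_le
      _ ≤ e := by rw [h1, mul_one]; exact natDegree_map_le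
  obtain ⟨P, Q, -, -, hPQ⟩ := exists_mul_add_mul_eq_C_resultant F G hFd hGd (Or.inl hdf.ne')
  set R : ℤ[X] := F.resultant G d e with hR
  have key1 : ∀ x t : ℤ, ∃ u v : ℤ, f.eval x * u + g.eval (x + t) * v = R.eval t := by
    intro x t
    refine ⟨((P.eval (C x)).eval t), ((Q.eval (C x)).eval t), ?_⟩
    have h := congrArg (fun q : ℤ[X][X] => (q.eval (C x)).eval t) hPQ
    simp only [eval_add, eval_mul, eval_C] at h
    have hFx : (F.eval (C x)).eval t = f.eval x := by
      rw [hF, eval_map, eval₂_at_apply, eval_C]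
    have hGx : (G.eval (C x)).eval t = g.eval (x + t) := by
      rw [hG, eval_comp, eval_map]
      simp only [eval_add, eval_X, eval_C]
      have := Polynomial.hom_eval₂ g C (evalRingHom t) (C x + X)
      simp only [coe_evalRingHom] at this
      rw [this]
      have hid : (evalRingHom t).comp C = RingHom.id ℤ := by
        ext; simp
      rw [hid]
      simp [eval₂_id]
    rw [hFx, hGx] at h
    exact h
  have key2 : ∀ t : ℤ, g.comp (X + C t) ≠ f → R.eval t ≠ 0 := by
    intro t ht h0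
    have h2 := res_ne f (g.comp (X + C t)) hf (comp_irr hg t) hdf
      (by rw [comp_natDegree]; exact hdg) hlf (by rw [comp_lc]; exact hlg) (Ne.symm ht)
    apply h2
    have h1 := resultant_map_map F G d e (evalRingHom t)
    have hFm : F.map (evalRingHom t) = f := by
      rw [hF, Polynomial.map_map]
      have hid : (evalRingHom t).comp C = RingHom.id ℤ := by
        ext; simp
      rw [hid, Polynomial.map_id]
    have hGm : G.map (evalRingHom t) = g.comp (X + C t) := by
      rw [hG, Polynomial.map_comp, Polynomial.map_map]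
      have hid : (evalRingHom t).comp C = RingHom.id ℤ := by
        ext; simp
      rw [hid, Polynomial.map_id]
      simp
    rw [hFm, hGm] at h1
    rw [comp_natDegree, ← hdd, ← hee, h1, ← hR]
    simpa using h0
  set K : ℝ := ∑ i ∈ range (R.natDegree + 1), |((R.coeff i : ℤ) : ℝ)| with hK
  have hK0 : 0 ≤ K := sum_nonneg fun i _ => abs_nonneg _
  have key3 : ∀ (T : ℝ) (t : ℤ), 1 ≤ T → |(t : ℝ)| ≤ T ^ b →
      |((R.eval t : ℤ) : ℝ)| ≤ K * (T ^ b) ^ R.natDegree := by
    intro T t hT ht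
    have h1 : (1 : ℝ) ≤ T ^ b := one_le_pow₀ hT
    rw [eval_eq_sum_range]
    push_cast
    refine (abs_sum_le_sum_abs _ _).trans ?_
    rw [hK, sum_mul]
    refine sum_le_sum fun i hi => ?_
    rw [abs_mul, abs_pow]
    refine mul_le_mul_of_nonneg_left ?_ (abs_nonneg _)
    calc |(t : ℝ)| ^ i ≤ (T ^ b) ^ i := pow_le_pow_left₀ (abs_nonneg _) ht i
      _ ≤ (T ^ b) ^ R.natDegree := pow_le_pow_right₀ h1 (by simpa [Nat.lt_succ_iff] using hi)
  refine ⟨b * R.natDegree + 1, fun A hA => ⟨max 1 (K + 1), ?_⟩⟩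
  intro T hT p hp hpT t htT hne x hx hxt
  have hT1 : 1 ≤ T := (le_max_left _ _).trans hT
  have hTK : K + 1 ≤ T := (le_max_right _ _).trans hT
  obtain ⟨u, v, huv⟩ := key1 x t
  have hdvd : (p : ℤ) ∣ R.eval t := by
    rw [← huv]
    exact dvd_add (hx.mul_right _) (hxt.mul_right _)
  have hne' : R.eval t ≠ 0 := key2 t hne
  have hle : (p : ℤ) ≤ |R.eval t| :=
    Int.le_of_dvd (abs_pos.2 hne') ((dvd_abs _ _).2 hdvd)
  have hle' : (p : ℝ) ≤ |((R.eval t : ℤ) : ℝ)| := by
    have : ((p : ℤ) : ℝ) ≤ ((|R.eval t| : ℤ) : ℝ) := by exact_mod_cast hle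
    rw [Int.cast_abs] at this
    simpa using this
  have h2 : K * (T ^ b) ^ R.natDegree ≤ T ^ A := by
    calc K * (T ^ b) ^ R.natDegree ≤ T * (T ^ b) ^ R.natDegree :=
          mul_le_mul_of_nonneg_right (by linarith) (by positivity)
      _ = T ^ (b * R.natDegree + 1) := by rw [← pow_mul]; ring
      _ ≤ T ^ A := pow_le_pow_right₀ hT1 hA
  have := key3 T t hT1 htT
  linarith

end Pool.Agent.N201.SP
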