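import Pool.Agent.N201.SP.Base
import Pool.Agent.N201.MC.Cover

set_option autoImplicit false

/-! # Prime factors of the values of several polynomials at the same arguments -/

namespace Pool.Agent.N201.SP

open Polynomial Finset Filter
open Pool.Agent.H474R2.PG

/-- size of the error term -/
lemma err_le' (r : ℕ → ℕ) (d A : ℕ) (hd : 1 ≤ d) (hA : 1 ≤ A) (L : ℝ) (hL : 1 < L)
    (hlog : 10 * Real.log d ≤ Real.log L)
    (T : Finset ℕ) (hT : ∀ p ∈ T, L ^ A < (p : ℝ)) (hr : ∀ p ∈ T, r p ≤ d)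
    (hTX : ∏ p ∈ T, (p : ℝ) ≤ Real.exp (1 / 4 * L)) :
    ∏ p ∈ T, (r p : ℝ) ≤ Real.exp (1 / 10 * L) := by
  have hL0 : 0 < L := by linarith
  have hdR : (1:ℝ) ≤ d := by exact_mod_cast hd
  have hlL : 0 < Real.log L := Real.log_pos hL
  have hLA : ∀ p ∈ T, L < (p : ℝ) := by
    intro p hp
    have h1 : L ≤ L ^ A := le_self_pow₀ hL.le (by omega)
    linarith [hT p hp]
  have h1 : ∏ p ∈ T, (r p : ℝ) ≤ ∏ p ∈ T, (d : ℝ) := by
    apply Finset.prod_le_prod
    · intro p _; positivity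
    · intro p hp
      exact_mod_cast hr p hp
  rw [Finset.prod_const] at h1
  have h2 : L ^ T.card ≤ ∏ p ∈ T, (p : ℝ) := by
    have : L ^ T.card = ∏ p ∈ T, L := by rw [Finset.prod_const]
    rw [this]
    exact Finset.prod_le_prod (fun _ _ => hL0.le) (fun p hp => (hLA p hp).le)
  have h3 : (T.card : ℝ) * Real.log L ≤ 1 / 4 * L := by
    have h4 := h2.trans hTX
    have h5 := Real.log_le_log (by positivity) h4
    rw [Real.log_pow, Real.log_exp] at h5
    exact h5
  refine h1.trans ?_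
  have h6 : (d : ℝ) ^ T.card = Real.exp (T.card * Real.log d) := by
    rw [Real.exp_nat_mul, Real.exp_log (by linarith)]
  rw [h6]
  apply Real.exp_le_exp.mpr
  have h7 : (T.card : ℝ) * (10 * Real.log d) ≤ T.card * Real.log L :=
    mul_le_mul_of_nonneg_left hlog (Nat.cast_nonneg _)
  linarith

/-- **Several polynomials at the same arguments.** -/
theorem prime_factors (F : Finset ℤ[X])
    (hF : ∀ f ∈ F, Irreducible f ∧ 0 < f.natDegree ∧ 0 < f.leadingCoeff) (b : ℕ) :
    ∃ c : ℝ, 0 < c ∧ ∃ Y₀ : ℝ, ∀ Y : ℝ, Y₀ ≤ Y → ∀ M : ℤ, Y ≤ M → ∀ S : Finset ℤ,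
      (∀ s ∈ S, |(s : ℝ)| ≤ (Real.log Y) ^ b) →
      (S.card : ℝ) ≤ c * Real.log Y * Real.log (Real.log Y) →
      ∃ x : ℤ, M < x ∧ (x : ℝ) ≤ M + Y / 2 ∧ ∀ f ∈ F, ∀ s ∈ S,
        ∃ p : ℕ, p.Prime ∧ (p : ℝ) ≤ Y ^ (1 / 10 : ℝ) ∧ (p : ℤ) ∣ f.eval (x + s) := by
  classical
  rcases F.eq_empty_or_nonempty with hFe | hFne
  · refine ⟨1, one_pos, 4, fun Y hY M _ S _ _ => ⟨M + 1, by omega, ?_, ?_⟩⟩
    · push_cast
      linarith
    · intro f hf
      rw [hFe] at hf
      exact absurd hf (Finset.notMem_empty f)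
  have : Nonempty (↥F) := hFne.to_subtype
  -- the constants of the polynomials
  set r : (↥F) → ℕ → ℕ := fun j => rho (j : ℤ[X]) with hr
  choose Bj hBj using fun j : (↥F) => rho_le (j : ℤ[X]) (hF j j.2).1.ne_zero
  choose Cj hCj0 hCj using fun j : (↥F) => mertens_two (j : ℤ[X]) (hF j j.2).1 (hF j j.2).2.1
  set d : ℕ := ∑ j : (↥F), (j : ℤ[X]).natDegree with hd
  set B : ℕ := ∑ j : (↥F), Bj j with hB
  set C : ℝ := ∑ j : (↥F), Cj j with hC
  have hdj : ∀ j : (↥F), (j : ℤ[X]).natDegree ≤ d := fun j =>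
    Finset.single_le_sum (f := fun j : (↥F) => (j : ℤ[X]).natDegree) (fun _ _ => Nat.zero_le _)
      (Finset.mem_univ j)
  have hBj' : ∀ j : (↥F), Bj j ≤ B := fun j =>
    Finset.single_le_sum (f := fun j : (↥F) => Bj j) (fun _ _ => Nat.zero_le _)
      (Finset.mem_univ j)
  have hCj' : ∀ j : (↥F), Cj j ≤ C := fun j =>
    Finset.single_le_sum (f := fun j : (↥F) => Cj j) (fun j _ => hCj0 j)
      (Finset.mem_univ j)
  have hd1 : 1 ≤ d := by
    obtain ⟨j⟩ := this
    exact le_trans (hF j j.2).2.1 (hdj j)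
  have hrd : ∀ j : (↥F), ∀ p : ℕ, p.Prime → B < p → r j p ≤ d := fun j p hp hBp =>
    (hBj j p hp (lt_of_le_of_lt (hBj' j) hBp)).trans (hdj j)
  have hMer : ∀ j : (↥F), ∀ w : ℝ, 3 ≤ w → |Sg (r j) w - Real.log (Real.log w)| ≤ C :=
    fun j w hw => (hCj j w hw).trans (hCj' j)
  have hM : ∀ j : (↥F), ∀ w : ℝ, 3 ≤ w → Real.log (Real.log w) - C ≤ Sg (r j) w := by
    intro j w hw
    have := (abs_le.1 (hMer j w hw)).1
    linarith
  choose cj hcj Zj hZj hRLj using fun j : (↥F) => rough_lower (r j) d B (hrd j) C (hM j)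
  obtain ⟨jm, -, hjm⟩ := Finset.exists_min_image (Finset.univ : Finset (↥F)) cj
    Finset.univ_nonempty
  obtain ⟨jM, -, hjM⟩ := Finset.exists_max_image (Finset.univ : Finset (↥F)) Zj
    Finset.univ_nonempty
  have hRL : ∀ j : (↥F), ∀ y z x : ℝ, Zj jM ≤ y → y ≤ x → x ≤ z →
      cj jm * Real.log x * Real.exp (-(Sg (r j) y)) - 1 ≤
        ∑ s ∈ ((PS (r j) y z).powerset.filter
            (fun s : Finset ℕ => s.Nonempty ∧ ∏ p ∈ s, (p : ℝ) ≤ x)),
          ∏ p ∈ s, (r j p : ℝ) / (p : ℝ) := by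
    intro j y z x hy hyx hxz
    refine le_trans ?_ (hRLj j y z x ((hjM j (Finset.mem_univ j)).trans hy) hyx hxz)
    have h1 : (3 : ℝ) ≤ x := ((hZj jM).trans hy).trans hyx
    have h2 : 0 ≤ Real.log x := Real.log_nonneg (by linarith)
    have h3 : cj jm ≤ cj j := hjm j (Finset.mem_univ j)
    have h4 : cj jm * Real.log x ≤ cj j * Real.log x := mul_le_mul_of_nonneg_right h3 h2
    have h5 := mul_le_mul_of_nonneg_right h4 (Real.exp_pos (-(Sg (r j) y))).le
    linarith
  -- collisions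
  choose A₀ hA₀ using fun q : (↥F) × (↥F) => no_coll (q.1 : ℤ[X]) (q.2 : ℤ[X])
    (hF q.1 q.1.2).1 (hF q.2 q.2.2).1 (hF q.1 q.1.2).2.1 (hF q.2 q.2.2).2.1
    (hF q.1 q.1.2).2.2 (hF q.2 q.2.2).2.2 (b + 1)
  set A : ℕ := 2 + ∑ q : (↥F) × (↥F), A₀ q with hA
  have hAq : ∀ q : (↥F) × (↥F), A₀ q ≤ A := fun q => by
    have := Finset.single_le_sum (f := A₀) (fun _ _ => Nat.zero_le _) (Finset.mem_univ q)
    omega
  have hA2 : 2 ≤ A := by omega
  choose T₀ hT₀ using fun q => hA₀ q A (hAq q)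
  obtain ⟨qM, -, hqM⟩ := Finset.exists_max_image (Finset.univ : Finset ((↥F) × (↥F))) T₀
    Finset.univ_nonempty
  obtain ⟨c, hc, X₀, hcov⟩ := Pool.Agent.N201.MC.covering_multi r d B hd1 hrd C hM (cj jm) (Zj jM)
    (hcj jm) (hZj jM) hRL A hA2
  have hAR : (0 : ℝ) < A := by exact_mod_cast (by omega : 0 < A)
  have hFc : (0 : ℝ) < F.card := by exact_mod_cast hFne.card_pos
  set c' : ℝ := c * Real.exp (-(2 * C)) / (2 * A * F.card) with hc'
  have hc'0 : 0 < c' := by positivity
  refine ⟨c', hc'0, ?_⟩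
  -- largeness
  have t1 : Tendsto (fun Y : ℝ => Real.log Y) atTop atTop := Real.tendsto_log_atTop
  have t2 : Tendsto (fun Y : ℝ => Real.log (Real.log Y)) atTop atTop := t1.comp t1
  obtain ⟨Y₀, hY₀⟩ := eventually_atTop.mp ((eventually_ge_atTop X₀).and
    ((t1.eventually_ge_atTop (max (T₀ qM) (max (B : ℝ) 10000))).and
      ((t2.eventually_ge_atTop (10 * Real.log d)).and (eventually_ge_atTop (1:ℝ)))))
  refine ⟨Y₀, fun Y hY M hMY S hS hScard => ?_⟩
  obtain ⟨a1, a2, a3, a4⟩ := hY₀ Y hY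
  have hY0 : 0 < Y := by linarith
  set L : ℝ := Real.log Y with hL
  set l : ℝ := Real.log L with hll
  have hLT : T₀ qM ≤ L := (le_max_left _ _).trans a2
  have hLB : (B : ℝ) ≤ L := ((le_max_left _ _).trans (le_max_right _ _)).trans a2
  have hL4 : 10000 ≤ L := ((le_max_right _ _).trans (le_max_right _ _)).trans a2
  have hLpos : 0 < L := by linarith
  have hYexp : Y = Real.exp L := (Real.exp_log hY0).symm
  have hYr : ∀ s : ℝ, Y ^ s = Real.exp (s * L) := by
    intro s
    rw [hYexp, ← Real.exp_mul, mul_comm]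
  have hl0 : 0 < l := Real.log_pos (by linarith)
  -- small primes
  set w : ℝ := L / 100 with hw
  have hw0 : 0 ≤ w := by positivity
  have hw3 : 3 ≤ w := by rw [hw]; linarith
  have hlw : l / 2 ≤ Real.log w := by
    have h1 : Real.log w = l - Real.log 100 := by
      rw [hw, Real.log_div (by linarith) (by norm_num)]
    have h2 : Real.log 100 = Real.log 10000 / 2 := by
      have : (10000 : ℝ) = 100 ^ 2 := by norm_num
      rw [this, Real.log_pow]
      push_cast
      ring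
    have h3 : Real.log 10000 ≤ l := Real.log_le_log (by norm_num) hL4
    rw [h1, h2]
    linarith
  have hlw0 : 0 < Real.log w := by linarith
  set PPs : Finset ℤ[X] := (F ×ˢ S).image (fun q => q.1.comp (X + Polynomial.C q.2)) with hPPd
  have hPPcard : (PPs.card : ℝ) ≤ F.card * S.card := by
    have h1 : PPs.card ≤ (F ×ˢ S).card := Finset.card_image_le
    rw [Finset.card_product] at h1
    exact_mod_cast h1
  obtain ⟨rr, hrr⟩ := greedy (PR w) (fun p hp => PR_prime hp) PPs
  set Rs : Finset ℤ[X] := PPs.filter (fun f => ∀ p ∈ PR w, ¬ (p : ℤ) ∣ f.eval rr) with hRs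
  have hrep : ∀ P : (↥Rs), ∃ q : (↥F) × ℤ, q.2 ∈ S ∧
      (q.1 : ℤ[X]).comp (X + Polynomial.C q.2) = (P : ℤ[X]) := by
    intro P
    have h1 := (Finset.mem_filter.1 P.2).1
    rw [hPPd, Finset.mem_image] at h1
    obtain ⟨q, hq, hq2⟩ := h1
    rw [Finset.mem_product] at hq
    exact ⟨(⟨q.1, hq.1⟩, q.2), hq.2, hq2⟩
  choose rep hrep1 hrep2 using hrep
  set W : ℕ := WW w with hW
  have hW1 : 1 ≤ W := WW_pos w
  have hWle : (W : ℝ) ≤ Real.exp (L / 50) := by
    rw [hW, hw]
    exact WW_le hLpos.le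
  have hWR : (0:ℝ) < W := by exact_mod_cast hW1
  -- survivors
  have hcard : ∀ k : (↥Rs), (Rs.card : ℝ) ≤
      c * L * l * Real.exp (-(Sg (r (rep k).1) (L ^ A))) := by
    intro k
    have h1 : (Rs.card : ℝ) ≤ F.card * S.card * (Real.exp C * (2 / l)) := by
      refine hrr.trans ?_
      have h2 : ∀ f ∈ PPs, ∏ p ∈ PR w, (1 - (rho f p : ℝ) / (p : ℝ)) ≤ Real.exp C * (2 / l) := by
        intro f hf
        rw [hPPd, Finset.mem_image] at hf
        obtain ⟨q, hq, rfl⟩ := hf
        rw [Finset.mem_product] at hq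
        refine (prod_le_exp _ w).trans ?_
        have h3 : Sg (rho (q.1.comp (X + Polynomial.C q.2))) w = Sg (r ⟨q.1, hq.1⟩) w := by
          unfold Sg
          refine Finset.sum_congr rfl fun p hp => ?_
          rw [rho_comp q.1 q.2 (PR_prime hp)]
        rw [h3]
        have h4 := hM ⟨q.1, hq.1⟩ w hw3
        have h5 : Real.exp (-(Sg (r ⟨q.1, hq.1⟩) w)) ≤ Real.exp (C - Real.log (Real.log w)) :=
          Real.exp_le_exp.mpr (by linarith)
        refine h5.trans ?_
        rw [Real.exp_sub, Real.exp_log hlw0, div_eq_mul_one_div]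
        apply mul_le_mul_of_nonneg_left _ (Real.exp_pos _).le
        rw [div_le_div_iff₀ hlw0 hl0]
        linarith
      refine (Finset.sum_le_sum h2).trans ?_
      rw [Finset.sum_const, nsmul_eq_mul]
      exact mul_le_mul_of_nonneg_right hPPcard (by positivity)
    have h6 : Real.exp (-C) / (A * l) ≤ Real.exp (-(Sg (r (rep k).1) (L ^ A))) := by
      have hLA3 : 3 ≤ L ^ A := by
        have : L ≤ L ^ A := le_self_pow₀ (by linarith) (by omega)
        linarith
      have h7 := (abs_le.1 (hMer (rep k).1 (L ^ A) hLA3)).2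
      rw [Real.log_pow] at h7
      have h8 : Real.exp (-C) / (A * l) = Real.exp (-C - Real.log (A * l)) := by
        rw [Real.exp_sub, Real.exp_log (by positivity)]
      rw [h8]
      apply Real.exp_le_exp.mpr
      linarith
    have h9 : (S.card : ℝ) ≤ c' * L * l := hScard
    calc (Rs.card : ℝ) ≤ F.card * S.card * (Real.exp C * (2 / l)) := h1
      _ ≤ F.card * (c' * L * l) * (Real.exp C * (2 / l)) := by
          apply mul_le_mul_of_nonneg_right _ (by positivity)
          exact mul_le_mul_of_nonneg_left h9 hFc.le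
      _ = c * L * l * (Real.exp (-C) / (A * l)) := by
          rw [hc']
          have e1 : Real.exp (-(2 * C)) * Real.exp C = Real.exp (-C) := by
            rw [← Real.exp_add]; congr 1; ring
          rw [← e1]
          generalize Real.exp (-(2 * C)) = E1
          generalize Real.exp C = E2
          have h1' : (A : ℝ) ≠ 0 := hAR.ne'
          have h2' : (F.card : ℝ) ≠ 0 := hFc.ne'
          have h3' : l ≠ 0 := hl0.ne'
          clear_value l L
          field_simp
      _ ≤ c * L * l * Real.exp (-(Sg (r (rep k).1) (L ^ A))) :=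
          mul_le_mul_of_nonneg_left h6 (by positivity)
  -- the set
  set B' : ℤ := M + ⌊Y / 2⌋ with hB'
  have hfl1 : Y / 2 - 1 < (⌊Y / 2⌋ : ℝ) := Int.sub_one_lt_floor _
  have hfl2 : (⌊Y / 2⌋ : ℝ) ≤ Y / 2 := Int.floor_le _
  have hY4 : 4 ≤ Y := by
    rw [hYexp]
    have := Real.add_one_le_exp L
    linarith
  have hMB : M ≤ B' := by
    rw [hB']
    have : (0:ℤ) ≤ ⌊Y / 2⌋ := Int.floor_nonneg.mpr (by linarith)
    linarith
  set 𝒜 : Finset ℤ := (Finset.Ioc M B').filter (fun a : ℤ => (W : ℤ) ∣ a - rr) with h𝒜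
  set N : ℝ := ((B' : ℝ) - M) / W with hN
  have hBM : Y / 4 ≤ (B' : ℝ) - M := by
    rw [hB']
    push_cast
    linarith
  have hNge : Y ^ (1 / 2 : ℝ) ≤ N := by
    rw [hN, le_div_iff₀ hWR]
    refine le_trans ?_ hBM
    rw [hYr]
    calc Real.exp (1 / 2 * L) * W ≤ Real.exp (1 / 2 * L) * Real.exp (L / 50) :=
          mul_le_mul_of_nonneg_left hWle (Real.exp_pos _).le
      _ = Real.exp (26 / 50 * L) := by rw [← Real.exp_add]; congr 1; ring
      _ ≤ Y / 4 := by
          have h1 : Y = Real.exp (26 / 50 * L) * Real.exp (24 / 50 * L) := by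
            rw [← Real.exp_add, hYexp]; congr 1; ring
          have h2 : 4 ≤ Real.exp (24 / 50 * L) := by
            have := Real.add_one_le_exp (24 / 50 * L)
            linarith
          have h3 := Real.exp_pos (26 / 50 * L)
          rw [h1]
          nlinarith
  -- conclusion for a suitable `a`
  have hfin : ∀ a ∈ 𝒜, (∀ P ∈ Rs, ∃ p : ℕ, p.Prime ∧ (p : ℝ) ≤ Y ^ (1 / 10 : ℝ) ∧
      (p : ℤ) ∣ P.eval a) → ∃ x : ℤ, M < x ∧ (x : ℝ) ≤ M + Y / 2 ∧ ∀ f ∈ F, ∀ s ∈ S,
        ∃ p : ℕ, p.Prime ∧ (p : ℝ) ≤ Y ^ (1 / 10 : ℝ) ∧ (p : ℤ) ∣ f.eval (x + s) := by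
    intro a ha hcovd
    rw [h𝒜, Finset.mem_filter, Finset.mem_Ioc] at ha
    obtain ⟨⟨ha1, ha2⟩, ha3⟩ := ha
    refine ⟨a, ha1, ?_, ?_⟩
    · have : (a : ℝ) ≤ (B' : ℝ) := by exact_mod_cast ha2
      rw [hB'] at this
      push_cast at this
      linarith
    · intro f hf s hs
      have hPe : (f.comp (X + Polynomial.C s)).eval a = f.eval (a + s) := by
        rw [eval_comp]
        simp
      have hPPm : f.comp (X + Polynomial.C s) ∈ PPs := by
        rw [hPPd, Finset.mem_image]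
        exact ⟨(f, s), Finset.mem_product.2 ⟨hf, hs⟩, rfl⟩
      rw [← hPe]
      by_cases hkR : f.comp (X + Polynomial.C s) ∈ Rs
      · exact hcovd _ hkR
      · rw [hRs, Finset.mem_filter, not_and] at hkR
        have h1 := hkR hPPm
        push Not at h1
        obtain ⟨p, hp, hpd⟩ := h1
        refine ⟨p, PR_prime hp, ?_, ?_⟩
        · have h2 := PR_le hw0 hp
          have h3 : w ≤ Y ^ (1 / 10 : ℝ) := by
            rw [hYr, hw]
            have := Real.add_one_le_exp (1 / 10 * L)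
            linarith
          linarith
        · have h2 : (p : ℤ) ∣ a - rr := by
            refine dvd_trans ?_ ha3
            have : p ∣ W := by
              rw [hW]
              exact Finset.dvd_prod_of_mem _ hp
            exact_mod_cast this
          exact (eval_dvd_congr _ p _ _ h2).2 hpd
  have h𝒜ne : 𝒜.Nonempty := by
    have h1 := Pool.Agent.H256R2.SC.count_ap M B' hMB W hW1 rr
    rw [← h𝒜] at h1
    rw [← Finset.card_pos]
    have h2 : (1:ℝ) < N := by
      refine lt_of_lt_of_le ?_ hNge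
      rw [hYr]
      exact Real.one_lt_exp_iff.mpr (by linarith)
    have h3 := (abs_le.mp h1).1
    rw [← hN] at h3
    have : (0:ℝ) < (𝒜.card : ℝ) := by linarith
    exact_mod_cast this
  rcases Rs.eq_empty_or_nonempty with hemp | hne
  · obtain ⟨a, ha⟩ := h𝒜ne
    exact hfin a ha (fun k hk => by rw [hemp] at hk; exact absurd hk (Finset.notMem_empty k))
  · have : Nonempty (↥Rs) := hne.to_subtype
    have hrho : ∀ (k : ↥Rs) (p : ℕ), p.Prime → rho (k : ℤ[X]) p = r (rep k).1 p := by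
      intro k p hp
      rw [← hrep2 k, rho_comp _ _ hp]
    have hLb : 2 * L ^ b ≤ L ^ (b + 1) := by
      rw [pow_succ, mul_comm (L ^ b)]
      exact mul_le_mul_of_nonneg_right (by linarith) (by positivity)
    have huniq : ∀ p : ℕ, p.Prime → L ^ A < (p : ℝ) → ∀ (a : ℤ) (P Q : ↥Rs),
        (p : ℤ) ∣ (P : ℤ[X]).eval a → (p : ℤ) ∣ (Q : ℤ[X]).eval a → P = Q := by
      intro p hp hpA a P Q h1 h2
      by_contra hPQ
      have e1 : (P : ℤ[X]).eval a = ((rep P).1 : ℤ[X]).eval (a + (rep P).2) := by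
        rw [← hrep2 P, eval_comp]
        simp
      have e2 : (Q : ℤ[X]).eval a =
          ((rep Q).1 : ℤ[X]).eval ((a + (rep P).2) + ((rep Q).2 - (rep P).2)) := by
        rw [← hrep2 Q, eval_comp]
        congr 1
        simp
      rw [e1] at h1
      rw [e2] at h2
      refine hT₀ ((rep P).1, (rep Q).1) L ((hqM _ (Finset.mem_univ _)).trans hLT) p hp hpA
        ((rep Q).2 - (rep P).2) ?_ ?_ _ h1 h2
      · have b1 := hS _ (hrep1 P)
        have b2 := hS _ (hrep1 Q)
        push_cast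
        calc |((rep Q).2 : ℝ) - ((rep P).2 : ℝ)| ≤ |((rep Q).2 : ℝ)| + |((rep P).2 : ℝ)| :=
              abs_sub _ _
          _ ≤ L ^ (b + 1) := by linarith
      · intro h3
        apply hPQ
        apply Subtype.ext
        rw [← hrep2 P, ← hrep2 Q]
        have h4 := congrArg (fun g : ℤ[X] => g.comp (X + Polynomial.C (rep P).2)) h3
        simp only [comp_assoc] at h4
        rw [← h4]
        congr 1
        simp
    obtain ⟨a, ha, hac⟩ := hcov Y a1 (↥Rs) (fun k => (rep k).1)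
      (fun k => by rw [Fintype.card_coe]; exact hcard k)
      (fun p a k => (p : ℤ) ∣ (k : ℤ[X]).eval a)
      (fun p hp hpA _ a k k' h1 h2 => huniq p hp hpA a k k' h1 h2)
      𝒜 N (Real.exp (1 / 10 * L)) hNge (Real.exp_pos _).le (by rw [hYr])
      (by
        intro T s hTX hT
        have hTW : ∀ p ∈ T, p.Prime ∧ ¬ p ∣ W := fun p hp => ⟨(hT p hp).1,
          PR_not_dvd hw0 (hT p hp).1 (by
            have e1 := (hT p hp).2
            have e2 : L ≤ L ^ A := le_self_pow₀ (by linarith) (by omega)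
            rw [hw]
            linarith)⟩
        have h1 := count_poly (fun p => ((s p : ↥Rs) : ℤ[X])) M B' hMB W hW1 rr T hTW
        have h2 : 𝒜.filter (fun a => ∀ p ∈ T, (p : ℤ) ∣ ((s p : ↥Rs) : ℤ[X]).eval a) =
            (Finset.Ioc M B').filter (fun a : ℤ => (W : ℤ) ∣ a - rr ∧
              ∀ p ∈ T, (p : ℤ) ∣ ((s p : ↥Rs) : ℤ[X]).eval a) := by
          rw [h𝒜, Finset.filter_filter]
        rw [hYr] at hTX
        have h4 : ∏ p ∈ T, (rho ((s p : ↥Rs) : ℤ[X]) p : ℝ) ≤ Real.exp (1 / 10 * L) := by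
          refine err_le' (fun p => rho ((s p : ↥Rs) : ℤ[X]) p) d A hd1 (by omega) L (by linarith)
            a3 T (fun p hp => (hT p hp).2) ?_ hTX
          intro p hp
          rw [hrho _ p (hT p hp).1]
          apply hrd _ p (hT p hp).1
          have e1 := (hT p hp).2
          have e2 : L ≤ L ^ A := le_self_pow₀ (by linarith) (by omega)
          have e3 : (B : ℝ) < p := by linarith
          exact_mod_cast e3
        have h3 := h1.trans h4
        rw [← h2] at h3
        have h5 : ∏ p ∈ T, (r (rep (s p)).1 p : ℝ) / (p : ℝ) =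
            ∏ p ∈ T, (rho ((s p : ↥Rs) : ℤ[X]) p : ℝ) / (p : ℝ) := by
          refine Finset.prod_congr rfl fun p hp => ?_
          rw [hrho _ p (hT p hp).1]
        rw [h5]
        refine le_trans (le_of_eq ?_) h3
        congr!)
    exact hfin a ha (fun k hk => by
      obtain ⟨p, hp, _, hpY, hpd⟩ := hac ⟨k, hk⟩
      exact ⟨p, hp, hpY, hpd⟩)

end Pool.Agent.N201.SP
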