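import Pool.Agent.N201.SP.Main

set_option autoImplicit false

/-! # Composite values of several polynomials, and their error terms -/

namespace Pool.Agent.N201.SP

open Polynomial Finset Filter MeasureTheory
open Pool.Agent.H474R2.PG

/-- a nonconstant polynomial has a nonconstant irreducible factor -/
lemma exists_irr (f : ℤ[X]) (hf : 0 < f.natDegree) :
    ∃ g : ℤ[X], Irreducible g ∧ 0 < g.natDegree ∧ 0 < g.leadingCoeff ∧ g ∣ f := by
  have h1 : 0 < f.primPart.natDegree := by rw [natDegree_primPart]; exact hf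
  have h2 : ¬ IsUnit f.primPart := by
    intro h
    have := natDegree_eq_zero_of_isUnit h
    omega
  have h3 : f.primPart ≠ 0 := by
    intro h
    rw [h, natDegree_zero] at h1
    exact lt_irrefl _ h1
  obtain ⟨g, hg, hgd⟩ := WfDvdMonoid.exists_irreducible_factor h2 h3
  have h4 : 0 < g.natDegree := by
    by_contra h
    have h5 : g.natDegree = 0 := by omega
    obtain ⟨c, hc⟩ : ∃ c, g = C c := ⟨_, eq_C_of_natDegree_eq_zero h5⟩
    apply hg.not_isUnit
    rw [hc] at hgd ⊢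
    exact isUnit_C.2 (f.isPrimitive_primPart c hgd)
  have h5 : g ∣ f := hgd.trans f.primPart_dvd
  rcases lt_or_ge 0 g.leadingCoeff with h6 | h6
  · exact ⟨g, hg, h4, h6, h5⟩
  · refine ⟨-g, (Associated.neg_left (Associated.refl g)).irreducible_iff.2 hg,
      by rw [natDegree_neg]; exact h4, ?_, (neg_dvd).2 h5⟩
    rw [leadingCoeff_neg]
    have : g.leadingCoeff ≠ 0 := leadingCoeff_ne_zero.2 hg.ne_zero
    omega

lemma growth' (f : ℤ[X]) (hd : 0 < f.natDegree) :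
    ∃ x₀ : ℤ, ∀ x : ℤ, x₀ ≤ x → x ≤ 2 * |f.eval x| := by
  have hf0 : f ≠ 0 := by
    rintro rfl
    simp at hd
  rcases lt_or_ge 0 f.leadingCoeff with h | h
  · obtain ⟨x₀, hx₀⟩ := growth f hd h
    refine ⟨x₀, fun x hx => (hx₀ x hx).trans ?_⟩
    have := le_abs_self (f.eval x)
    omega
  · obtain ⟨x₀, hx₀⟩ := growth (-f) (by rw [natDegree_neg]; exact hd) (by
      rw [leadingCoeff_neg]
      have : f.leadingCoeff ≠ 0 := leadingCoeff_ne_zero.2 hf0
      omega)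
    refine ⟨x₀, fun x hx => (hx₀ x hx).trans ?_⟩
    rw [eval_neg]
    have := neg_le_abs (f.eval x)
    omega

/-- **Composite values of several polynomials at the same arguments.** -/
theorem composite (F : Finset ℤ[X]) (hF : ∀ f ∈ F, 0 < f.natDegree) (b : ℕ) :
    ∃ c : ℝ, 0 < c ∧ ∃ Y₀ : ℝ, ∀ Y : ℝ, Y₀ ≤ Y → ∀ M : ℤ, Y ≤ M → ∀ S : Finset ℤ,
      (∀ s ∈ S, |(s : ℝ)| ≤ (Real.log Y) ^ b) →
      (S.card : ℝ) ≤ c * Real.log Y * Real.log (Real.log Y) →
      ∃ x : ℤ, M < x ∧ (x : ℝ) ≤ M + Y / 2 ∧ ∀ f ∈ F, ∀ s ∈ S,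
        ∃ p : ℕ, p.Prime ∧ (p : ℝ) ≤ Y ^ (1 / 10 : ℝ) ∧ (p : ℤ) ∣ f.eval (x + s) ∧
          (p : ℤ) < |f.eval (x + s)| := by
  classical
  have hg : ∀ f : ℤ[X], ∃ g : ℤ[X], f ∈ F →
      (Irreducible g ∧ 0 < g.natDegree ∧ 0 < g.leadingCoeff ∧ g ∣ f) := by
    intro f
    by_cases h : f ∈ F
    · obtain ⟨g, hg⟩ := exists_irr f (hF f h)
      exact ⟨g, fun _ => hg⟩
    · exact ⟨0, fun h' => absurd h' h⟩
  choose g hg using hg
  have hx₀ : ∀ f : ℤ[X], ∃ x₀ : ℤ, f ∈ F → ∀ x : ℤ, x₀ ≤ x → x ≤ 2 * |f.eval x| := by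
    intro f
    by_cases h : f ∈ F
    · obtain ⟨x₀, hx₀⟩ := growth' f (hF f h)
      exact ⟨x₀, fun _ => hx₀⟩
    · exact ⟨0, fun h' => absurd h' h⟩
  choose x₀ hx₀ using hx₀
  obtain ⟨c, hc, Y₁, hmain⟩ := prime_factors (F.image g) (by
    intro q hq
    obtain ⟨f, hf, rfl⟩ := Finset.mem_image.1 hq
    obtain ⟨h1, h2, h3, h4⟩ := hg f hf
    exact ⟨h1, h2, h3⟩) b
  have k1 : ∀ᶠ Y : ℝ in atTop, (Real.log Y) ^ b ≤ Y / 2 := by
    have h1 : (fun Y : ℝ => (Real.log Y) ^ (b:ℝ)) =o[atTop] (fun Y : ℝ => Y ^ (1 : ℝ)) :=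
      isLittleO_log_rpow_rpow_atTop b (by norm_num)
    filter_upwards [h1.def (show (0:ℝ) < 1 / 2 by norm_num), eventually_ge_atTop (1:ℝ)]
      with Y hY hY1
    have hlog := Real.log_nonneg hY1
    rw [Real.norm_eq_abs, Real.norm_eq_abs, abs_of_nonneg (Real.rpow_nonneg hlog _),
      Real.rpow_one, abs_of_nonneg (by linarith), Real.rpow_natCast] at hY
    linarith
  have k2 : ∀ᶠ Y : ℝ in atTop, Y ^ (1 / 10 : ℝ) < Y / 4 := by
    filter_upwards [eventually_ge_atTop (Real.exp 2)] with Y hY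
    have hY0 : 0 < Y := lt_of_lt_of_le (Real.exp_pos _) hY
    have hlog : 2 ≤ Real.log Y := by
      have := Real.log_le_log (Real.exp_pos 2) hY
      rwa [Real.log_exp] at this
    have e1 : Y = Y ^ (1 / 10 : ℝ) * Y ^ (9 / 10 : ℝ) := by
      rw [← Real.rpow_add hY0]; norm_num
    have e2 : 4 < Y ^ (9 / 10 : ℝ) := by
      rw [Real.rpow_def_of_pos hY0]
      have h3 : Real.exp 1 < Real.exp (Real.log Y * (9 / 10)) := Real.exp_lt_exp.2 (by linarith)
      have h4 : Real.exp (9 / 5) ≤ Real.exp (Real.log Y * (9 / 10)) :=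
        Real.exp_le_exp.2 (by linarith)
      have h5 : (4 : ℝ) < Real.exp (9 / 5) := by
        have h6 : Real.exp (9 / 5) = Real.exp 1 * Real.exp (4 / 5) := by
          rw [← Real.exp_add]; norm_num
        have h7 := Real.exp_one_gt_d9
        have h8 : (1.5 : ℝ) < Real.exp (4 / 5) := by
          have := Real.add_one_le_exp (4 / 5 : ℝ)
          norm_num at this ⊢
          linarith
        rw [h6]
        nlinarith
      linarith
    have e3 : 0 < Y ^ (1 / 10 : ℝ) := Real.rpow_pos_of_pos hY0 _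
    nlinarith
  have k3 : ∀ᶠ Y : ℝ in atTop, ∀ f ∈ F, (x₀ f : ℝ) ≤ Y / 2 := by
    rw [Filter.eventually_all_finset]
    intro f _
    filter_upwards [eventually_ge_atTop (2 * (x₀ f : ℝ))] with Y hY
    linarith
  obtain ⟨Y₀, hY₀⟩ := eventually_atTop.mp ((eventually_ge_atTop Y₁).and (k1.and (k2.and k3)))
  refine ⟨c, hc, Y₀, fun Y hY M hMY S hS hcard => ?_⟩
  obtain ⟨a1, a2, a3, a4⟩ := hY₀ Y hY
  obtain ⟨x, hx1, hx2, hx3⟩ := hmain Y a1 M hMY S hS hcard
  refine ⟨x, hx1, hx2, fun f hf s hs => ?_⟩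
  obtain ⟨p, hp1, hp2, hp3⟩ := hx3 (g f) (Finset.mem_image_of_mem g hf) s hs
  have hgf := (hg f hf).2.2.2
  refine ⟨p, hp1, hp2, hp3.trans (eval_dvd hgf), ?_⟩
  have hsb := hS s hs
  have hxs : Y / 2 ≤ ((x + s : ℤ) : ℝ) := by
    push_cast
    have h1 : (M : ℝ) < x := by exact_mod_cast hx1
    have h2 := neg_abs_le (s : ℝ)
    linarith
  have hx0' : x₀ f ≤ x + s := by
    have h1 : (x₀ f : ℝ) ≤ ((x + s : ℤ) : ℝ) := (a4 f hf).trans hxs
    exact_mod_cast h1
  have h3 := hx₀ f hf _ hx0'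
  have h4 : ((x + s : ℤ) : ℝ) ≤ 2 * ((|f.eval (x + s)| : ℤ) : ℝ) := by exact_mod_cast h3
  have h5 : (p : ℝ) < ((|f.eval (x + s)| : ℤ) : ℝ) := by linarith
  exact_mod_cast h5

/-- the number of `1 ≤ n ≤ N` for which `f n` is a prime number -/
noncomputable def cnt (f : ℤ[X]) (N : ℕ) : ℕ :=
  ((Finset.Icc 1 N).filter (fun n : ℕ => (f.eval (n : ℤ)).toNat.Prime)).card

lemma cnt_eq (f : ℤ[X]) {a b : ℕ} (hab : a ≤ b)
    (h : ∀ n : ℕ, a < n → n ≤ b → ¬ (f.eval (n : ℤ)).toNat.Prime) : cnt f b = cnt f a := by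
  unfold cnt
  congr 1
  ext n
  simp only [mem_filter, mem_Icc]
  constructor
  · rintro ⟨⟨h1, h2⟩, h3⟩
    refine ⟨⟨h1, ?_⟩, h3⟩
    by_contra h4
    exact h n (by omega) (by omega) h3
  · rintro ⟨⟨h1, h2⟩, h3⟩
    exact ⟨⟨h1, by omega⟩, h3⟩

lemma li_int {a b : ℝ} (ha : 2 ≤ a) (hb : 2 ≤ b) :
    IntervalIntegrable (fun t : ℝ => 1 / Real.log t) volume a b := by
  apply ContinuousOn.intervalIntegrable
  intro t ht
  have ht2 : 2 ≤ t := by
    rcases le_total a b with h | h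
    · rw [Set.uIcc_of_le h] at ht; linarith [ht.1]
    · rw [Set.uIcc_of_ge h] at ht; linarith [ht.1]
  have hl : 0 < Real.log t := Real.log_pos (by linarith)
  apply ContinuousAt.continuousWithinAt
  exact continuousAt_const.div (Real.continuousAt_log (by linarith)) hl.ne'

lemma li_sub {a b : ℝ} (ha : 2 ≤ a) (hab : a ≤ b) : (b - a) / Real.log b ≤
    (∫ t in (2 : ℝ)..b, 1 / Real.log t) - ∫ t in (2 : ℝ)..a, 1 / Real.log t := by
  rw [intervalIntegral.integral_interval_sub_left (li_int le_rfl (ha.trans hab)) (li_int le_rfl ha)]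
  have h1 : (b - a) / Real.log b = ∫ _t in a..b, 1 / Real.log b := by
    rw [intervalIntegral.integral_const, smul_eq_mul]; ring
  rw [h1]
  apply intervalIntegral.integral_mono_on hab (by simp) (li_int ha (ha.trans hab))
  intro t ht
  have ht0 : 2 ≤ t := ha.trans ht.1
  have hl : 0 < Real.log t := Real.log_pos (by linarith)
  exact one_div_le_one_div_of_le hl (Real.log_le_log (by linarith) ht.2)

/-- a proper divisor bigger than one -/
lemma not_prime_of_dvd {z : ℤ} {p : ℕ} (hp : p.Prime) (h1 : (p : ℤ) ∣ z) (h2 : (p : ℤ) < |z|) :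
    ¬ z.toNat.Prime := by
  intro h
  have hz : 0 < z := by
    have := h.pos
    omega
  have e : ((z.toNat : ℕ) : ℤ) = z := Int.toNat_of_nonneg hz.le
  have h3 : p ∣ z.toNat := by
    have : (p : ℤ) ∣ ((z.toNat : ℕ) : ℤ) := by rw [e]; exact h1
    exact_mod_cast this
  rcases (Nat.dvd_prime h).1 h3 with h4 | h4
  · exact hp.one_lt.ne' h4
  · rw [abs_of_pos hz, ← e, h4] at h2
    exact lt_irrefl _ h2

/-- **The error terms of several polynomials do not cancel.** -/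
theorem omega (F : Finset ℤ[X]) (hF : ∀ f ∈ F, 0 < f.natDegree) :
    ∃ c : ℝ, 0 < c ∧ ∃ Y₀ : ℝ, ∀ Y : ℝ, Y₀ ≤ Y → ∀ M : ℕ, Y ≤ M →
      ∀ w κ : ℤ[X] → ℝ, (∀ f ∈ F, 0 ≤ w f ∧ 0 ≤ κ f) →
      ∃ N : ℕ, M ≤ N ∧ (N : ℝ) ≤ M + Y ∧
        c * (∑ f ∈ F, w f * κ f) * (Real.log Y / Real.log M) * Real.log (Real.log Y) ≤
          |∑ f ∈ F, w f * ((cnt f N : ℝ) - κ f * ∫ t in (2 : ℝ)..N, 1 / Real.log t)| := by
  classical
  obtain ⟨c, hc, Y₁, hmain⟩ := composite F hF 2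
  set c₁ : ℝ := min c 1 / 2 with hc₁
  have hc₁0 : 0 < c₁ := by positivity
  have hc₁c : 2 * c₁ ≤ c := by rw [hc₁]; linarith [min_le_left c 1]
  have hc₁1 : 2 * c₁ ≤ 1 := by rw [hc₁]; linarith [min_le_right c 1]
  have t1 : Tendsto (fun Y : ℝ => Real.log Y) atTop atTop := Real.tendsto_log_atTop
  have t2 : Tendsto (fun Y : ℝ => Real.log (Real.log Y)) atTop atTop := t1.comp t1
  obtain ⟨Y₀, hY₀⟩ := eventually_atTop.mp ((eventually_ge_atTop Y₁).and
    ((t1.eventually_ge_atTop 1).and ((t2.eventually_ge_atTop (1 / c₁)).and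
      ((eventually_ge_atTop (3:ℝ)).and (show ∀ᶠ Y : ℝ in atTop, (Real.log Y) ^ 2 ≤ Y / 4 by
        have h1 : (fun Y : ℝ => (Real.log Y) ^ (2:ℝ)) =o[atTop] (fun Y : ℝ => Y ^ (1 : ℝ)) :=
          isLittleO_log_rpow_rpow_atTop 2 (by norm_num)
        filter_upwards [h1.def (show (0:ℝ) < 1 / 4 by norm_num), eventually_ge_atTop (1:ℝ)]
          with Y hY hY1
        have hlog := Real.log_nonneg hY1
        rw [Real.norm_eq_abs, Real.norm_eq_abs, abs_of_nonneg (Real.rpow_nonneg hlog _),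
          Real.rpow_one, abs_of_nonneg (by linarith), Real.rpow_two] at hY
        linarith)))))
  refine ⟨c₁ / 5, by positivity, Y₀, fun Y hY M hMY w κ hwκ => ?_⟩
  obtain ⟨a1, a2, a3, a4, a5⟩ := hY₀ Y hY
  set L : ℝ := Real.log Y with hL
  set l : ℝ := Real.log L with hl
  have hl0 : 0 < l := lt_of_lt_of_le (by positivity) a3
  have hlL : l ≤ L := by
    have := Real.log_le_sub_one_of_pos (show (0:ℝ) < L by linarith)
    rw [hl]; linarith
  have hc₁l : 1 ≤ c₁ * l := by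
    rw [div_le_iff₀ hc₁0] at a3
    linarith
  set H : ℝ := c₁ * L * l with hH
  have hH1 : 1 ≤ H := by
    have : H = L * (c₁ * l) := by rw [hH]; ring
    rw [this]; nlinarith
  set K : ℕ := ⌊H⌋₊ with hK
  have hK1 : (K : ℝ) ≤ H := Nat.floor_le (by linarith)
  have hK2 : H < K + 1 := Nat.lt_floor_add_one H
  have hHL : H ≤ L ^ 2 := by
    have e1 : c₁ * L ≤ L := by nlinarith
    calc H = (c₁ * L) * l := by rw [hH]
      _ ≤ L * L := mul_le_mul e1 hlL hl0.le (by linarith)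
      _ = L ^ 2 := by ring
  obtain ⟨x, hx1, hx2, hx3⟩ := hmain Y a1 M (by exact_mod_cast hMY)
    ((Finset.range (K + 1)).image (fun k : ℕ => (k : ℤ))) (by
      intro s hs
      obtain ⟨k, hk, rfl⟩ := Finset.mem_image.1 hs
      rw [Finset.mem_range] at hk
      have h1 : (k : ℝ) ≤ K := by exact_mod_cast (by omega : k ≤ K)
      push_cast
      rw [abs_of_nonneg (Nat.cast_nonneg k)]
      linarith) (by
      have h1 : ((Finset.range (K + 1)).image (fun k : ℕ => (k : ℤ))).card ≤ K + 1 := by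
        have := Finset.card_image_le (s := Finset.range (K + 1)) (f := fun k : ℕ => (k : ℤ))
        rwa [Finset.card_range] at this
      have h2 : (((Finset.range (K + 1)).image (fun k : ℕ => (k : ℤ))).card : ℝ) ≤ K + 1 := by
        exact_mod_cast h1
      have h3 : 2 * H ≤ c * L * l := by
        have e1 : 2 * H = (2 * c₁) * (L * l) := by rw [hH]; ring
        have e2 : c * L * l = c * (L * l) := by ring
        rw [e1, e2]
        exact mul_le_mul_of_nonneg_right hc₁c (by positivity)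
      linarith)
  lift x to ℕ using (by have := Int.natCast_nonneg M; omega)
  have hMx : M < x := by exact_mod_cast hx1
  have hx2' : (x : ℝ) ≤ M + Y / 2 := by exact_mod_cast hx2
  have hcnt : ∀ f ∈ F, cnt f (x + K) = cnt f (x - 1) := by
    intro f hf
    apply cnt_eq f (by omega)
    intro n hn1 hn2
    obtain ⟨p, hp1, -, hp3, hp4⟩ := hx3 f hf ((n - x : ℕ) : ℤ) (Finset.mem_image.2
      ⟨n - x, Finset.mem_range.2 (by omega), rfl⟩)
    have e : (x : ℤ) + ((n - x : ℕ) : ℤ) = (n : ℤ) := by omega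
    rw [e] at hp3 hp4
    exact not_prime_of_dvd hp1 hp3 hp4
  have hM3 : (3 : ℝ) ≤ M := a4.trans hMY
  have hya : ((x - 1 : ℕ) : ℝ) = x - 1 := by
    rw [Nat.cast_sub (by omega)]; simp
  have hyx : (M : ℝ) ≤ ((x - 1 : ℕ) : ℝ) := by
    have : M ≤ x - 1 := by omega
    exact_mod_cast this
  have hyb : ((x + K : ℕ) : ℝ) ≤ M + Y := by
    push_cast
    linarith
  have hb1 : ((x + K : ℕ) : ℝ) ≤ 2 * M := by linarith
  have hb2 : ((x + K : ℕ) : ℝ) ≤ (M : ℝ) ^ 2 := by nlinarith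
  have hab : ((x - 1 : ℕ) : ℝ) ≤ ((x + K : ℕ) : ℝ) := by
    have : x - 1 ≤ x + K := by omega
    exact_mod_cast this
  have hlx : 0 < Real.log M := Real.log_pos (by linarith)
  have hbx : (M : ℝ) ≤ ((x + K : ℕ) : ℝ) := hyx.trans hab
  have hlogb : Real.log ((x + K : ℕ) : ℝ) ≤ 2 * Real.log M := by
    have h1 := Real.log_le_log (by linarith) hb2
    rw [Real.log_pow] at h1
    exact_mod_cast h1
  have hlogb0 : 0 < Real.log ((x + K : ℕ) : ℝ) := Real.log_pos (by linarith)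
  set Li : ℝ → ℝ := fun y => ∫ t in (2 : ℝ)..y, 1 / Real.log t with hLi
  have hLs : (((x + K : ℕ) : ℝ) - ((x - 1 : ℕ) : ℝ)) / Real.log ((x + K : ℕ) : ℝ) ≤
      Li ((x + K : ℕ) : ℝ) - Li ((x - 1 : ℕ) : ℝ) := li_sub (by linarith) hab
  have hd : H ≤ ((x + K : ℕ) : ℝ) - ((x - 1 : ℕ) : ℝ) := by
    rw [hya]; push_cast; linarith
  have hL2 : H / (2 * Real.log M) ≤ Li ((x + K : ℕ) : ℝ) - Li ((x - 1 : ℕ) : ℝ) := by
    refine le_trans ?_ hLs
    rw [div_le_div_iff₀ (by positivity) hlogb0]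
    nlinarith
  set G : ℝ := ∑ f ∈ F, w f * κ f with hG
  have hG0 : 0 ≤ G := Finset.sum_nonneg fun f hf => mul_nonneg (hwκ f hf).1 (hwκ f hf).2
  set E : ℕ → ℝ := fun N => ∑ f ∈ F, w f * ((cnt f N : ℝ) - κ f * Li N) with hE
  have hdiff : G * (H / (2 * Real.log M)) ≤ E (x - 1) - E (x + K) := by
    have h1 : E (x - 1) - E (x + K) = G * (Li ((x + K : ℕ) : ℝ) - Li ((x - 1 : ℕ) : ℝ)) := by
      rw [hE, hG]
      simp only
      rw [← Finset.sum_sub_distrib, Finset.sum_mul]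
      refine Finset.sum_congr rfl fun f hf => ?_
      rw [hcnt f hf]
      ring
    rw [h1]
    exact mul_le_mul_of_nonneg_left hL2 hG0
  have htar : c₁ / 5 * G * (L / Real.log M) * l = G * (H / (2 * Real.log M)) * (2 / 5) := by
    rw [hH]; field_simp
  have hnn : 0 ≤ G * (H / (2 * Real.log M)) := mul_nonneg hG0 (by positivity)
  by_cases hcase : G * (H / (2 * Real.log M)) * (2 / 5) ≤ |E (x + K)|
  · refine ⟨x + K, by omega, hyb, ?_⟩
    rw [htar]; exact hcase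
  · refine ⟨x - 1, by omega, by linarith, ?_⟩
    rw [htar]
    push Not at hcase
    have h1 := neg_abs_le (E (x + K))
    have h2 := le_abs_self (E (x - 1))
    have h3 : G * (H / (2 * Real.log M)) * (2 / 5) ≤ |E (x - 1)| := by linarith
    exact h3

end Pool.Agent.N201.SP
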